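import Pool.Agent.TH105.QH.Old.SurB
import Pool.Agent.TH603.Sur.Main

/-! The expected dimension for block systems of the plane. -/

set_option autoImplicit false

namespace Pool.Agent.TH105.QH.Old

open Pool.Agent.TH745.MN

open Finset Pool.Agent.TH176.Nag Pool.Agent.TH603.Sur H932R3

/-- the empty range -/
def Above {n : ℕ} (m : Fin n → ℕ) (d : ℕ) : Prop :=
  ∃ (K r : ℕ) (A : Fin r → Finset (Fin n)), 2 ≤ K ∧ r < K ^ 2 ∧
    (∀ i j, i ≠ j → Disjoint (A i) (A j)) ∧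
    (∀ i, d < 2 * K * ∑ p ∈ A i, m p) ∧
    (d : ℝ) ^ 2 < ∑ i, min ((∑ p ∈ A i, (m p : ℝ)) ^ 2 / (A i).card)
      ((∑ p ∈ A i, (m p : ℝ)) * d / (2 * K))

/-- the independent range -/
def Below {n : ℕ} (m : Fin n → ℕ) (d : ℕ) : Prop :=
  ∃ (K r : ℕ) (A : Fin r → Finset (Fin n)) (c : Fin r → ℕ) (e : ℕ), 2 ≤ K ∧ r < K ^ 2 ∧
    (∀ i j, i ≠ j → Disjoint (A i) (A j)) ∧ (∀ p, m p ≠ 0 → ∃ i, p ∈ A i) ∧
    (∀ i, ∀ p ∈ A i, m p ≤ c i + 1) ∧ e ≤ d ∧ (e + 3) % (2 * K) ≤ K ∧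
    (∀ i, 2 * K * (((A i).card : ℝ) + ∑ p ∈ A i, ((max (m p) (c i) : ℕ) : ℝ)) <
      (A i).card * ((e : ℝ) + 3 - 1 / (2 * K))) ∧
    ∑ i, max (((e : ℝ) + 3 - 1 / (2 * K)) / (2 * K))
      (((A i).card : ℝ) + ∑ p ∈ A i, ((max (m p) (c i) : ℕ) : ℝ)) ^ 2 / (A i).card <
        ((e : ℝ) + 3 - 1 / (2 * K)) ^ 2

theorem Sur_emb {ι κ : Type} [Fintype ι] [Fintype κ] {w : ι → ℕ} {v : κ → ℕ} {S : Set (ℤ × ℤ)}
    (g : ι → κ) (hg : Function.Injective g) (hw : ∀ i, w i = v (g i))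
    (hv : ∀ k, v k ≠ 0 → ∃ i, g i = k) (h : Sur w S) : Sur v S := by
  obtain ⟨T, h1, h2, h3⟩ := h
  refine ⟨T, h1, h2.trans ?_, Emp_emb g hg (fun i => (hw i).le) h3⟩
  unfold Pool.Agent.TH603.Sur.cond
  refine Finset.sum_of_injOn g (hg.injOn) (fun i _ => by simp) (fun k _ hk => ?_)
    (fun i _ => by rw [hw])
  by_cases h0 : v k = 0
  · simp [h0]
  · obtain ⟨i, hi⟩ := hv k h0
    exact absurd ⟨i, by simp, hi⟩ hk

theorem sigma_inj {n r : ℕ} {A : Fin r → Finset (Fin n)}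
    (hA : ∀ i j, i ≠ j → Disjoint (A i) (A j)) :
    Function.Injective fun x : (Σ i, {p // p ∈ A i}) => (x.2 : Fin n) := by
  rintro ⟨i, p, hp⟩ ⟨j, q, hq⟩ h
  simp only at h
  subst h
  have hij : i = j := by
    by_contra hne
    exact Finset.disjoint_left.1 (hA i j hne) hp hq
  subst hij
  rfl

theorem Above.emp {n : ℕ} {m : Fin n → ℕ} {d : ℕ} (h : Above m d) :
    Emp m {p : ℤ × ℤ | 0 ≤ p.1 ∧ 0 ≤ p.2 ∧ p.1 + p.2 ≤ (d : ℤ)} := by
  obtain ⟨K, r, A, hK, hr, hA, h1, h2⟩ := h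
  have e : ∀ i, ((∑ j : {p // p ∈ A i}, m j : ℕ) : ℝ) = ∑ p ∈ A i, (m p : ℝ) := by
    intro i
    rw [Finset.sum_coe_sort (A i) m]
    push_cast
    rfl
  have key := Emp_blocks (K := K) (d := d) (r := r) (by omega) (by omega)
    (κ := fun i => {p // p ∈ A i}) (v := fun x => m x.2)
    (by
      intro i
      rw [Finset.sum_coe_sort (A i) m]
      exact h1 i)
    (by
      simp only [e, Fintype.card_coe]
      exact h2)
  exact Emp_emb _ (sigma_inj hA) (fun _ => le_rfl) key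

theorem Above.le {n : ℕ} {m : Fin n → ℕ} {d : ℕ} (h : Above m d) : d ≤ ∑ p, m p := by
  classical
  obtain ⟨K, r, A, hK, hr, hA, h1, h2⟩ := h
  have hK' : (2 : ℝ) ≤ K := by exact_mod_cast hK
  have h3 : ∑ i, min ((∑ p ∈ A i, (m p : ℝ)) ^ 2 / (A i).card)
      ((∑ p ∈ A i, (m p : ℝ)) * d / (2 * K)) ≤ ∑ i, (∑ p ∈ A i, (m p : ℝ)) * d / (2 * K) :=
    sum_le_sum fun i _ => min_le_right _ _
  rw [← sum_div, ← sum_mul] at h3
  have h4 : ∑ i, ∑ p ∈ A i, (m p : ℝ) ≤ ∑ p, (m p : ℝ) := by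
    rw [← sum_biUnion (fun i _ j _ hij => hA i j hij)]
    exact sum_le_sum_of_subset_of_nonneg (subset_univ _) fun _ _ _ => Nat.cast_nonneg _
  have h5 : (0 : ℝ) ≤ d := Nat.cast_nonneg d
  have h6 : (∑ i, ∑ p ∈ A i, (m p : ℝ)) * d / (2 * K) ≤ (∑ p, (m p : ℝ)) * d := by
    rw [div_le_iff₀ (by positivity)]
    have h7 : (∑ i, ∑ p ∈ A i, (m p : ℝ)) * d ≤ (∑ p, (m p : ℝ)) * d :=
      mul_le_mul_of_nonneg_right h4 h5
    have h8 : 0 ≤ (∑ p, (m p : ℝ)) * d :=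
      mul_nonneg (sum_nonneg fun _ _ => Nat.cast_nonneg _) h5
    nlinarith
  have h9 : (d : ℝ) ^ 2 < (∑ p, (m p : ℝ)) * d := lt_of_lt_of_le h2 (h3.trans h6)
  have h10 : (d : ℝ) < ((∑ p, m p : ℕ) : ℝ) := by
    push_cast
    rw [sq] at h9
    exact lt_of_mul_lt_mul_right h9 h5
  exact_mod_cast h10.le

theorem Below.sur {n : ℕ} {m : Fin n → ℕ} {d : ℕ} (h : Below m d) :
    Sur m {p : ℤ × ℤ | 0 ≤ p.1 ∧ 0 ≤ p.2 ∧ p.1 + p.2 ≤ (d : ℤ)} := by
  classical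
  obtain ⟨K, r, A, c, e', hK, hr, hA, hm, hc, hed, hmod, h1, h2⟩ := h
  obtain ⟨e, he⟩ : ∃ e, r + e + 1 = K ^ 2 := ⟨K ^ 2 - r - 1, by omega⟩
  obtain ⟨A', hA'⟩ : ∃ A' : Fin (r + e) → Finset (Fin n), A' = Fin.append A (fun _ => ∅) :=
    ⟨_, rfl⟩
  obtain ⟨c', hc'⟩ : ∃ c' : Fin (r + e) → ℕ, c' = Fin.append c (fun _ => 0) := ⟨_, rfl⟩
  have a1 : ∀ i, A' (Fin.castAdd e i) = A i := fun i => by rw [hA', Fin.append_left]
  have a2 : ∀ i, A' (Fin.natAdd r i) = ∅ := fun i => by rw [hA', Fin.append_right]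
  have b1 : ∀ i, c' (Fin.castAdd e i) = c i := fun i => by rw [hc', Fin.append_left]
  have hA2 : ∀ i j, i ≠ j → Disjoint (A' i) (A' j) := by
    intro i j
    refine Fin.addCases (fun i => ?_) (fun i => ?_) i
    · refine Fin.addCases (fun j => ?_) (fun j => ?_) j
      · intro hij
        rw [a1, a1]
        exact hA i j fun h => hij (by rw [h])
      · intro _
        rw [a2]
        exact disjoint_empty_right _
    · intro _
      rw [a2]
      exact disjoint_empty_left _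
  have ee : ∀ i, ((∑ j : {p // p ∈ A' i}, max (m j) (c' i) : ℕ) : ℝ) =
      ∑ p ∈ A' i, ((max (m p) (c' i) : ℕ) : ℝ) := by
    intro i
    rw [Finset.sum_coe_sort (A' i) (fun p => max (m p) (c' i))]
    push_cast
    rfl
  have key := Sur_blocks (K := K) (d := d) (e := e') (r := r + e) hK he hed hmod
    (κ := fun i => {p // p ∈ A' i}) (w := fun x => m x.2) (c := c')
    (by
      rintro i ⟨p, hp⟩
      revert hp
      refine Fin.addCases (fun i => ?_) (fun i => ?_) i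
      · intro hp
        rw [a1] at hp
        rw [b1]
        exact hc i p hp
      · intro hp
        rw [a2] at hp
        exact absurd hp (notMem_empty _))
    (by
      intro i
      rw [ee, Fintype.card_coe]
      refine Fin.addCases (fun i => ?_) (fun i => ?_) i
      · intro _
        rw [a1, b1]
        exact h1 i
      · intro hi
        rw [a2] at hi
        simp at hi)
    (by
      simp only [ee, Fintype.card_coe]
      rw [Fin.sum_univ_add]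
      simp only [a1, a2, b1, card_empty, lt_irrefl, if_false, sum_const_zero, add_zero]
      refine lt_of_le_of_lt (sum_le_sum fun i _ => ?_) h2
      split_ifs
      · exact le_rfl
      · positivity)
  refine Sur_emb _ (sigma_inj hA2) (fun _ => rfl) (fun p hp => ?_) key
  obtain ⟨i, hi⟩ := hm p hp
  exact ⟨⟨Fin.castAdd e i, p, by rw [a1]; exact hi⟩, rfl⟩

/-- **Block systems.** -/
theorem expDim_blocks {n : ℕ} (m : Fin n → ℕ) :
    ∃ F : MvPolynomial (Fin n × Fin 2) ℚ, F ≠ 0 ∧ ∀ {L : Type} [Field L] [CharZero L]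
      (P : Fin n → Fin 2 → L), MvPolynomial.aeval (fun ij : Fin n × Fin 2 => P ij.1 ij.2) F ≠ 0 →
      ∀ d, (Above m d ∨ Below m d) → ExpDim L m P d :=
  expDim_two (N := ∑ p, m p) (fun _ hd => hd.le) (fun _ hd => hd.emp) (fun _ hd => hd.sur)

end Pool.Agent.TH105.QH.Old
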