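import Pool.Agent.TH745.MN.Blocks

/-! Independence for block systems of the plane. -/

set_option autoImplicit false

namespace Pool.Agent.TH105.QH.Old

open Pool.Agent.TH745.MN

open Finset Pool.Agent.TH176.Nag Pool.Agent.TH603.Sur Filter Topology

/-- the triangle of a node -/
def Nd (M : ℕ) (B X Y : ℝ) : Set (ℤ × ℤ) :=
  {m | 0 ≤ m.2 ∧ -(Y / (4 * M) * (B - 4 * M * m.2)) < (m.1 : ℝ) ∧
    (m.1 : ℝ) < X / (4 * M) * (B - 4 * M * m.2)}

theorem Sur_of_isEmpty {κ : Type} [Fintype κ] [IsEmpty κ] (w : κ → ℕ) (S : Set (ℤ × ℤ)) :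
    Sur w S := by
  refine ⟨∅, by simp, ?_, ?_⟩
  · unfold Pool.Agent.TH603.Sur.cond
    simp
  · rw [coe_empty]
    exact Emp_empty w

/-- open conditions on the shape of the triangle of one block -/
theorem site_ev {κ : Type} [Fintype κ] {w : κ → ℕ} {c : ℕ} (hc : ∀ j, w j ≤ c + 1) {M : ℕ}
    (hM : 1 ≤ M) {B σ : ℝ} (hB0 : 0 < B + 4 * M) (hσ0 : 0 < σ) (hσ1 : σ ≠ 1)
    (hσN : σ < Fintype.card κ) (hσ2 : 1 < Fintype.card κ * σ)
    (hB : (Fintype.card κ : ℝ) + ((∑ j, max (w j) c : ℕ) : ℝ) <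
      √(Fintype.card κ * σ) * ((B + 4 * M) / (4 * M))) :
    ∀ᶠ ε in 𝓝[>] (0 : ℝ), ∃ lx ux ly uy : ℝ, 0 < lx ∧ lx < ux ∧ 0 < ly ∧ ly < uy ∧
      ux + uy ≤ σ + 2 * ε ∧
      ∀ X Y : ℝ, lx < X → X < ux → ly < Y → Y < uy → Sur w (Nd M B X Y) := by
  have hM0 : (0 : ℝ) < M := by exact_mod_cast hM
  obtain ⟨N, hN⟩ : ∃ N : ℝ, N = Fintype.card κ := ⟨_, rfl⟩
  obtain ⟨T, hT⟩ : ∃ T : ℝ, T = ((∑ j, max (w j) c : ℕ) : ℝ) := ⟨_, rfl⟩
  obtain ⟨b, hb⟩ : ∃ b : ℝ, b = (B + 4 * M) / (4 * M) := ⟨_, rfl⟩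
  have hb0 : 0 < b := by rw [hb]; positivity
  obtain ⟨t, ht⟩ : ∃ t : ℝ, t = √(N * σ) := ⟨_, rfl⟩
  rw [← hN, ← hT, ← hb, ← ht] at hB
  rw [← hN] at hσN hσ2
  have hN0 : 0 < N := by linarith
  have ht2 : t ^ 2 = N * σ := by rw [ht]; exact Real.sq_sqrt (by positivity)
  have ht0 : 0 < t := by rw [ht]; exact Real.sqrt_pos.2 (by positivity)
  have ht1 : 1 < t := by
    have : (1 : ℝ) ^ 2 < t ^ 2 := by rw [ht2, one_pow]; exact hσ2
    exact lt_of_pow_lt_pow_left₀ 2 ht0.le this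
  have hσt : σ < t := by
    have : σ ^ 2 < t ^ 2 := by
      rw [ht2, sq]
      exact mul_lt_mul_of_pos_right hσN hσ0
    exact lt_of_pow_lt_pow_left₀ 2 ht0.le this
  obtain ⟨p, q, hpq, hp1, hq1, k1, k2, k3⟩ := exists_pq' hσ0 hσ1 hσt ht1
  have hp0 : (0 : ℝ) < p := by exact_mod_cast (by omega : 0 < p)
  have hq0 : (0 : ℝ) < q := by exact_mod_cast (by omega : 0 < q)
  obtain ⟨Y0, hY0⟩ : ∃ Y0 : ℝ, Y0 = (t - q) / p := ⟨_, rfl⟩
  have hpY : p * Y0 = t - q := by rw [hY0]; field_simp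
  have hY0' : 0 < Y0 := by rw [hY0]; exact div_pos (by linarith) hp0
  have hX0' : 0 < σ - Y0 := by
    have : p * Y0 < p * σ := by rw [hpY]; linarith
    have := lt_of_mul_lt_mul_left this hp0.le
    linarith
  have c1 := lin_ev (2 * p) (show p * (σ - Y0) < q by rw [mul_sub, hpY]; linarith)
  have c2 := lin_ev 1 hY0'
  have c3 := lin_ev (p * b) (show N + T < t * b from hB)
  have c4 : ∀ᶠ ε in 𝓝[>] (0 : ℝ), 0 < ε := eventually_mem_nhdsWithin
  filter_upwards [c1, c2, c3, c4] with ε h1 h2 h3 h4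
  refine ⟨σ - Y0 + ε, σ - Y0 + 2 * ε, Y0 - ε, Y0, by linarith, by linarith,
    by linarith, by linarith, by linarith, ?_⟩
  intro X Y hX1 hX2 hY1 hY2
  have hX0 : 0 < X := by linarith
  have hYp : 0 < Y := by linarith
  have e1 : 4 * (M : ℝ) * (X / (4 * M)) = X := by field_simp
  have e2 : 4 * (M : ℝ) * (Y / (4 * M)) = Y := by field_simp
  have hs : σ < X + Y := by linarith
  have m1 : p * Y < p * Y0 := mul_lt_mul_of_pos_left hY2 hp0
  have m2 : p * (Y0 - ε) < p * Y := mul_lt_mul_of_pos_left hY1 hp0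
  have m3 : p * X < p * (σ - Y0 + 2 * ε) := mul_lt_mul_of_pos_left hX2 hp0
  have htt : p * Y + q < t := by linarith
  have htp : 0 < p * Y + q := by positivity
  have hsq : (p * Y + q) ^ 2 ≤ N * σ := by
    rw [← ht2]
    exact pow_le_pow_left₀ htp.le htt.le 2
  have hN1 : (p * Y + q) ^ 2 ≤ N * (X + Y) := by
    refine hsq.trans ?_
    exact mul_le_mul_of_nonneg_left hs.le hN0.le
  refine Sur_site2 (κ := κ) (w := w) hc hM (x := X / (4 * M)) (y := Y / (4 * M)) (B := B)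
    (t := p * Y + q) (by positivity) (by positivity) p q hpq (by omega) (by rw [e2]) htp
    (by rw [e1]; linarith) ?_ ?_
  · rw [mul_add, e1, e2, ← hN]
    exact hN1
  · rw [mul_add (4 * (M : ℝ)), e1, e2, ← hT]
    have h5 : (p * Y + q) ^ 2 / (X + Y) ≤ N := by
      rw [div_le_iff₀ (by linarith)]
      exact hN1
    have h6 : (p * Y + q) * (B + 4 * M) / (4 * M) = (p * Y + q) * b := by rw [hb]; ring
    rw [h6]
    have h7 : (t - p * ε) * b < (p * Y + q) * b := mul_lt_mul_of_pos_right (by linarith) hb0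
    linarith

/-- one point -/
theorem site_ev1 {κ : Type} [Fintype κ] {w : κ → ℕ} (hκ : Fintype.card κ = 1) {M : ℕ}
    (hM : 1 ≤ M) {B σ : ℝ} (hσ : 1 < σ) (hw : ∀ j, (w j : ℝ) * (4 * M) < B + 4 * M) :
    ∀ᶠ ε in 𝓝[>] (0 : ℝ), ∃ lx ux ly uy : ℝ, 0 < lx ∧ lx < ux ∧ 0 < ly ∧ ly < uy ∧
      ux + uy ≤ σ + 2 * ε ∧
      ∀ X Y : ℝ, lx < X → X < ux → ly < Y → Y < uy → Sur w (Nd M B X Y) := by
  have hM0 : (0 : ℝ) < M := by exact_mod_cast hM
  obtain ⟨i0, hi0⟩ := Fintype.card_eq_one_iff.1 hκ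
  have c4 : ∀ᶠ ε in 𝓝[>] (0 : ℝ), 0 < ε := eventually_mem_nhdsWithin
  filter_upwards [c4] with ε h4
  refine ⟨1, 1 + ε, ε / 2, ε, by linarith, by linarith, by linarith, by linarith, by linarith,
    fun X Y hX _ hY _ => ?_⟩
  apply Sur_rows w 0
  intro k j hj
  have hsum : ∑ i, (w i - k) = w i0 - k := by
    have h5 : (univ : Finset κ) = {i0} := by
      ext i
      simp [hi0 i]
    rw [h5, sum_singleton]
  rw [hsum] at hj
  have h6 : ((j + k + 1 : ℕ) : ℝ) ≤ ((w i0 : ℕ) : ℝ) := by exact_mod_cast (by omega)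
  push_cast at h6
  have h7 := hw i0
  have hj0 : (0 : ℝ) ≤ j := Nat.cast_nonneg j
  have h8 : (j : ℝ) * (4 * M) < B - 4 * M * k := by
    have := mul_le_mul_of_nonneg_right h6 (show (0 : ℝ) ≤ 4 * M by positivity)
    nlinarith
  have h9 : 0 < B - 4 * M * k := lt_of_le_of_lt (by positivity) h8
  have hY0 : 0 < Y := by linarith
  refine ⟨by simp only; omega, ?_, ?_⟩
  · simp only [zero_add, Int.cast_natCast]
    have h10 : 0 < Y / (4 * M) * (B - 4 * M * k) := by positivity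
    linarith
  · simp only [zero_add, Int.cast_natCast]
    rw [div_mul_eq_mul_div, lt_div_iff₀ (by positivity)]
    have h10 : 1 * (B - 4 * M * k) ≤ X * (B - 4 * M * k) :=
      mul_le_mul_of_nonneg_right hX.le h9.le
    linarith

theorem site_ev0 {κ : Type} [Fintype κ] [IsEmpty κ] {w : κ → ℕ} {M : ℕ} {B : ℝ} :
    ∀ᶠ ε in 𝓝[>] (0 : ℝ), ∃ lx ux ly uy : ℝ, 0 < lx ∧ lx < ux ∧ 0 < ly ∧ ly < uy ∧
      ux + uy ≤ 0 + 2 * ε ∧
      ∀ X Y : ℝ, lx < X → X < ux → ly < Y → Y < uy → Sur w (Nd M B X Y) := by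
  have c4 : ∀ᶠ ε in 𝓝[>] (0 : ℝ), 0 < ε := eventually_mem_nhdsWithin
  filter_upwards [c4] with ε h4
  exact ⟨ε / 2, ε, ε / 2, ε, by linarith, by linarith, by linarith, by linarith, by linarith,
    fun X Y _ _ _ _ => Sur_of_isEmpty w _⟩

/-- independence from shapes with open conditions -/
theorem Sur_shapes {r M D : ℕ} (hM : r + 1 = M) (hr : 1 ≤ r) (hD : M ≤ D % (2 * M) + 2)
    {κ : Fin r → Type} [∀ i, Fintype (κ i)] {w : (Σ i, κ i) → ℕ} {σ : Fin r → ℝ}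
    (hσ : ∑ i, σ i < 4 * M)
    (h : ∀ i, ∀ᶠ ε in 𝓝[>] (0 : ℝ), ∃ lx ux ly uy : ℝ, 0 < lx ∧ lx < ux ∧ 0 < ly ∧ ly < uy ∧
      ux + uy ≤ σ i + 2 * ε ∧
      ∀ X Y : ℝ, lx < X → X < ux → ly < Y → Y < uy →
        Sur (fun j => w ⟨i, j⟩) (Nd M (2 * (D : ℝ) + 1 - 2 * r) X Y)) : Sur w (WM M D) := by
  have hM0 : (0 : ℝ) < M := by
    have : 0 < M := by omega
    exact_mod_cast this
  have c1 := eventually_all.2 h
  have c2 := lin_ev (2 * (r : ℝ)) hσ
  obtain ⟨ε, h1, h2⟩ := (c1.and c2).exists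
  choose lx ux ly uy a1 a2 a3 a4 a5 a6 using h1
  obtain ⟨z, hz, hirr⟩ := Pool.Agent.TH522.MN.exists_generic (J := Fin r ⊕ Fin r)
    (Sum.elim lx ly) (Sum.elim ux uy) (by rintro (i | i) <;> simp [a1, a3])
    (by rintro (i | i) <;> simp [a2, a4])
  have z1 : ∀ i, lx i < z (Sum.inl i) ∧ z (Sum.inl i) < ux i := fun i => hz (Sum.inl i)
  have z2 : ∀ i, ly i < z (Sum.inr i) ∧ z (Sum.inr i) < uy i := fun i => hz (Sum.inr i)
  refine Sur_core hM hr hD (x := fun i => z (Sum.inl i) / (4 * M))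
    (y := fun i => z (Sum.inr i) / (4 * M)) ?_ ?_ ?_ ?_ ?_
  · intro i
    have := (z1 i).1
    have := a1 i
    exact div_pos (by linarith) (by positivity)
  · intro i
    have := (z2 i).1
    have := a3 i
    exact div_pos (by linarith) (by positivity)
  · have e : ∑ i, (z (Sum.inl i) / (4 * M) + z (Sum.inr i) / (4 * M)) =
        (∑ i, (z (Sum.inl i) + z (Sum.inr i))) / (4 * M) := by
      rw [sum_div]
      exact sum_congr rfl fun i _ => (add_div _ _ _).symm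
    rw [e, div_le_one (by positivity)]
    have h3 : ∑ i, (z (Sum.inl i) + z (Sum.inr i)) ≤ ∑ i, (σ i + 2 * ε) := by
      refine sum_le_sum fun i _ => ?_
      have := (z1 i).2
      have := (z2 i).2
      have := a5 i
      linarith
    rw [sum_add_distrib (f := σ), sum_const, card_univ, Fintype.card_fin, nsmul_eq_mul] at h3
    linarith
  · have e : ∀ p : Fin r ⊕ Fin r, Sum.elim (fun i => z (Sum.inl i) / (4 * (M : ℝ)))
        (fun i => z (Sum.inr i) / (4 * M)) p = z p / (4 * M) := by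
      rintro (i | i) <;> rfl
    intro p q hpq
    rw [e, e, div_div_div_cancel_right₀ (by positivity)]
    exact hirr p q hpq
  · intro i
    exact a6 i _ _ (z1 i).1 (z1 i).2 (z2 i).1 (z2 i).2

/-- independence for blocks -/
theorem Sur_blocks {K d e r : ℕ} (hK : 2 ≤ K) (hr : r + 1 = K ^ 2) (hed : e ≤ d)
    (hmod : (e + 3) % (2 * K) ≤ K)
    {κ : Fin r → Type} [∀ i, Fintype (κ i)] {w : (Σ i, κ i) → ℕ} {c : Fin r → ℕ}
    (hc : ∀ i j, w ⟨i, j⟩ ≤ c i + 1)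
    (h1 : ∀ i, 0 < Fintype.card (κ i) →
      2 * K * ((Fintype.card (κ i) : ℝ) + ((∑ j, max (w ⟨i, j⟩) (c i) : ℕ) : ℝ)) <
        Fintype.card (κ i) * ((e : ℝ) + 3 - 1 / (2 * K)))
    (h2 : ∑ i, (if 0 < Fintype.card (κ i) then max (((e : ℝ) + 3 - 1 / (2 * K)) / (2 * K))
      ((Fintype.card (κ i) : ℝ) + ((∑ j, max (w ⟨i, j⟩) (c i) : ℕ) : ℝ)) ^ 2 /
        Fintype.card (κ i) else 0) < ((e : ℝ) + 3 - 1 / (2 * K)) ^ 2) :
    Sur w {m : ℤ × ℤ | 0 ≤ m.1 ∧ 0 ≤ m.2 ∧ m.1 + m.2 ≤ (d : ℤ)} := by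
  classical
  by_cases hne : ∃ i, 0 < Fintype.card (κ i)
  swap
  · push Not at hne
    have : ∀ i, IsEmpty (κ i) := fun i => Fintype.card_eq_zero_iff.1 (Nat.le_zero.1 (hne i))
    have : IsEmpty (Σ i, κ i) := by rwa [isEmpty_sigma]
    exact Sur_of_isEmpty w _
  have hK0 : (2 : ℝ) ≤ K := by exact_mod_cast hK
  obtain ⟨R, hR⟩ : ∃ R : ℝ, R = (e : ℝ) + 3 - 1 / (2 * K) := ⟨_, rfl⟩
  obtain ⟨T, hT⟩ : ∃ T : Fin r → ℝ, ∀ i, T i = ((∑ j, max (w ⟨i, j⟩) (c i) : ℕ) : ℝ) :=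
    ⟨_, fun _ => rfl⟩
  obtain ⟨N, hN⟩ : ∃ N : Fin r → ℝ, ∀ i, N i = Fintype.card (κ i) := ⟨_, fun _ => rfl⟩
  simp only [← hR, ← hT, ← hN] at h1 h2
  have hT0 : ∀ i, 0 ≤ T i := fun i => by rw [hT]; exact Nat.cast_nonneg _
  have hRK : 2 * (K : ℝ) < R := by
    obtain ⟨i, hi⟩ := hne
    have g2 := h1 i hi
    have g3 : (0 : ℝ) < N i := by rw [hN]; exact_mod_cast hi
    have g4 : 2 * K * N i ≤ 2 * K * (N i + T i) :=
      mul_le_mul_of_nonneg_left (by linarith [hT0 i]) (by positivity)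
    have g5 : N i * (2 * K) < N i * R := by linarith
    exact lt_of_mul_lt_mul_left g5 g3.le
  have hR0 : 0 < R := by linarith
  have hKd : 2 * K + 1 ≤ e + 3 := by
    have h0 : (0 : ℝ) < 1 / (2 * K) := by positivity
    have : (2 * K : ℝ) < e + 3 := by rw [hR] at hRK; linarith
    have : 2 * K < e + 3 := by exact_mod_cast this
    omega
  obtain ⟨j, hj⟩ : ∃ j, j = (e + 3) % (2 * K) := ⟨_, rfl⟩
  obtain ⟨a, ha⟩ : ∃ a, a + 1 = (e + 3) / (2 * K) := by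
    have : 0 < (e + 3) / (2 * K) := Nat.div_pos (by omega) (by omega)
    exact ⟨(e + 3) / (2 * K) - 1, by omega⟩
  have haj := Nat.div_add_mod (e + 3) (2 * K)
  rw [← hj, ← ha] at haj
  rw [← hj] at hmod
  have hKj : K * j ≤ K * K := Nat.mul_le_mul_left K hmod
  have hKK : 4 ≤ K ^ 2 := by nlinarith
  obtain ⟨s, hs⟩ : ∃ s, s + 2 = K ^ 2 + K * j := ⟨K ^ 2 + K * j - 2, by omega⟩
  have hs2 : s < 2 * K ^ 2 := by rw [sq] at hs ⊢; omega
  obtain ⟨D, hD⟩ : ∃ D, D = s + 2 * K ^ 2 * a := ⟨_, rfl⟩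
  have hDe : D + K ^ 2 + 2 = K * (e + 3) := by
    rw [hD, ← haj]
    have : K * (2 * K * (a + 1) + j) = 2 * K ^ 2 * a + 2 * K ^ 2 + K * j := by ring
    rw [this]
    omega
  have hD2 : K ^ 2 ≤ D % (2 * K ^ 2) + 2 := by
    rw [hD, Nat.add_mul_mod_self_left, Nat.mod_eq_of_lt hs2]
    omega
  have hsub : {m : ℤ × ℤ | 0 ≤ m.1 ∧ 0 ≤ m.2 ∧ m.1 + m.2 ≤ (e : ℤ)} ⊆
      {m : ℤ × ℤ | 0 ≤ m.1 ∧ 0 ≤ m.2 ∧ m.1 + m.2 ≤ (d : ℤ)} := by
    rintro m ⟨g1, g2, g3⟩
    exact ⟨g1, g2, g3.trans (by exact_mod_cast hed)⟩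
  refine Sur.mono ?_ hsub
  refine Pool.Agent.TH48.MN.Sur_plane_of_WM (K := K) (D := D) (by omega) (by omega) ?_
  -- the shapes
  obtain ⟨A, hA⟩ : ∃ A : Fin r → ℝ, ∀ i, A i = max (R / (2 * K)) (N i + T i) :=
    ⟨_, fun _ => rfl⟩
  simp only [← hA] at h2
  have hA0 : ∀ i, 0 < A i := fun i => by
    rw [hA]; exact lt_max_of_lt_left (by positivity)
  obtain ⟨u, hu⟩ : ∃ u : Fin r → ℝ, ∀ i, u i = 4 * (K : ℝ) ^ 2 / R ^ 2 *
      (if 0 < Fintype.card (κ i) then A i ^ 2 / N i else 0) :=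
    ⟨_, fun _ => rfl⟩
  have hu1 : ∑ i, u i < 4 * (K : ℝ) ^ 2 := by
    simp only [hu]
    rw [← mul_sum]
    have h4 := mul_lt_mul_of_pos_left h2 (show 0 < 4 * (K : ℝ) ^ 2 / R ^ 2 by positivity)
    rwa [div_mul_cancel₀ _ (by positivity)] at h4
  have hN0 : ∀ i, 0 < Fintype.card (κ i) → 0 < N i := fun i hi => by
    rw [hN]; exact_mod_cast hi
  have hu2 : ∀ i, 0 < Fintype.card (κ i) → N i * u i = (2 * K * A i / R) ^ 2 := by
    intro i hi
    have := hN0 i hi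
    rw [hu, if_pos hi]
    field_simp
    ring
  have hA1 : ∀ i, 1 ≤ 2 * K * A i / R := by
    intro i
    rw [one_le_div hR0]
    have : R / (2 * K) ≤ A i := by rw [hA]; exact le_max_left _ _
    rw [div_le_iff₀ (by positivity)] at this
    linarith
  have hA2 : ∀ i, 2 * K * (N i + T i) / R ≤ 2 * K * A i / R := by
    intro i
    have : N i + T i ≤ A i := by rw [hA]; exact le_max_right _ _
    gcongr
  have hu5 : ∀ i, ¬ 0 < Fintype.card (κ i) → u i = 0 := by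
    intro i hi
    rw [hu, if_neg hi, mul_zero]
  have hu6 : ∀ i, 0 < Fintype.card (κ i) → 0 < u i := by
    intro i hi
    have := hN0 i hi
    have := hA0 i
    rw [hu, if_pos hi]
    positivity
  have hA3 : ∀ i, 2 ≤ Fintype.card (κ i) → 2 * K * A i / R < N i := by
    intro i g1
    have hi : 0 < Fintype.card (κ i) := by omega
    have g2 := h1 i hi
    have g3 : (2 : ℝ) ≤ N i := by rw [hN]; exact_mod_cast g1
    rw [div_lt_iff₀ hR0, hA, mul_max_of_nonneg _ _ (by positivity)]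
    refine max_lt ?_ g2
    rw [mul_div_cancel₀ _ (by positivity)]
    nlinarith
  have hu4 : ∀ i, 2 ≤ Fintype.card (κ i) → u i < N i := by
    intro i g1
    have hi : 0 < Fintype.card (κ i) := by omega
    have g0 := hN0 i hi
    have g3 := hA3 i g1
    have g4 := hA1 i
    have : N i * u i < N i * N i := by
      rw [hu2 i hi, sq]
      exact mul_lt_mul'' g3 g3 (by linarith) (by linarith)
    exact lt_of_mul_lt_mul_left this g0.le
  obtain ⟨ε, hε0, hε1, hε2, hε3⟩ : ∃ ε : ℝ, 0 < ε ∧ ∑ i, (u i + u i * ε) < 4 * (K : ℝ) ^ 2 ∧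
      (∀ i, 2 ≤ Fintype.card (κ i) → u i + u i * ε < N i) ∧
      ∀ i, u i < 1 → u i + u i * ε < 1 := by
    have e0 : ∀ᶠ ε in 𝓝[>] (0 : ℝ), 0 < ε := eventually_mem_nhdsWithin
    have e1 := lin_ev (∑ i, u i) hu1
    have e2 : ∀ᶠ ε in 𝓝[>] (0 : ℝ), ∀ i, 2 ≤ Fintype.card (κ i) → u i + u i * ε < N i := by
      rw [eventually_all]
      intro i
      by_cases hi : 2 ≤ Fintype.card (κ i)
      · exact (lin_ev (u i) (hu4 i hi)).mono fun ε h _ => h
      · exact Eventually.of_forall fun ε h => absurd h hi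
    have e3 : ∀ᶠ ε in 𝓝[>] (0 : ℝ), ∀ i, u i < 1 → u i + u i * ε < 1 := by
      rw [eventually_all]
      intro i
      by_cases hi : u i < 1
      · exact (lin_ev (u i) hi).mono fun ε h _ => h
      · exact Eventually.of_forall fun ε h => absurd h hi
    obtain ⟨ε, g0, g1, g2, g3⟩ := (e0.and (e1.and (e2.and e3))).exists
    refine ⟨ε, g0, ?_, g2, g3⟩
    rw [sum_add_distrib, ← sum_mul]
    exact g1
  have hrr : (r : ℝ) = (K : ℝ) ^ 2 - 1 := by
    have : ((r + 1 : ℕ) : ℝ) = ((K ^ 2 : ℕ) : ℝ) := by rw [hr]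
    push_cast at this
    linarith
  have hb' : 2 * (D : ℝ) + 1 - 2 * ((K : ℝ) ^ 2 - 1) + 4 * K ^ 2 = 2 * K * R := by
    have g2 : ((D + K ^ 2 + 2 : ℕ) : ℝ) = ((K * (e + 3) : ℕ) : ℝ) := by rw [hDe]
    push_cast at g2
    have g3 : 2 * (K : ℝ) * (1 / (2 * K)) = 1 := by field_simp
    have g4 : 2 * K * R = 2 * (K * ((e : ℝ) + 3)) - 2 * (K : ℝ) * (1 / (2 * K)) := by
      rw [hR]; ring
    rw [g4, g3, ← g2]
    ring
  refine Sur_shapes hr ?_ hD2 (σ := fun i => u i + u i * ε) (by push_cast; exact hε1) ?_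
  · omega
  intro i
  by_cases hi : 0 < Fintype.card (κ i)
  · have g2 := h1 i hi
    have g0 := hN0 i hi
    have g4 := hu6 i hi
    have g5 : u i < u i + u i * ε := by
      have := mul_pos g4 hε0
      linarith
    rcases Nat.lt_or_ge 1 (Fintype.card (κ i)) with g1 | g1
    swap
    · have g1' : Fintype.card (κ i) = 1 := by omega
      have hN1 : N i = 1 := by rw [hN, g1']; simp
      have hu1' : 1 ≤ u i := by
        have h5 := hu2 i hi
        rw [hN1, one_mul] at h5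
        rw [h5]
        exact one_le_pow₀ (hA1 i)
      refine site_ev1 g1' (by omega) (σ := u i + u i * ε) (by linarith) fun j => ?_
      push_cast
      rw [hrr, hb']
      have g5 : (w ⟨i, j⟩ : ℝ) ≤ T i := by
        rw [hT]
        have : w ⟨i, j⟩ ≤ ∑ j, max (w ⟨i, j⟩) (c i) :=
          (le_max_left _ _).trans
            (single_le_sum (f := fun j => max (w ⟨i, j⟩) (c i)) (fun _ _ => Nat.zero_le _)
              (mem_univ j))
        exact_mod_cast this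
      rw [hN1] at g2
      have g6 : (w ⟨i, j⟩ : ℝ) * (4 * K ^ 2) ≤ 2 * K * (2 * K * (1 + T i)) := by nlinarith
      have g7 := mul_lt_mul_of_pos_left g2 (show (0 : ℝ) < 2 * K by positivity)
      linarith
    have hNu : N i * u i < N i * (u i + u i * ε) := mul_lt_mul_of_pos_left g5 g0
    have h1A := hA1 i
    refine site_ev (c := c i) (fun j => hc i j) (by omega) (σ := u i + u i * ε) ?_ (by linarith)
      ?_ ?_ ?_ ?_
    · push_cast
      rw [hrr, hb']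
      positivity
    · rcases lt_or_ge (u i) 1 with h | h
      · exact (hε3 i h).ne
      · exact (lt_of_le_of_lt h g5).ne'
    · rw [← hN]
      exact hε2 i g1
    · rw [← hN]
      refine lt_of_le_of_lt ?_ hNu
      rw [hu2 i hi]
      exact one_le_pow₀ h1A
    · rw [← hN, ← hT]
      push_cast
      rw [hrr, hb']
      have hsq : 2 * K * A i / R < √(N i * (u i + u i * ε)) := by
        apply Real.lt_sqrt_of_sq_lt
        rw [← hu2 i hi]
        exact hNu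
      have h8 : N i + T i = 2 * K * (N i + T i) / R * (2 * K * R / (4 * K ^ 2)) := by
        field_simp
        ring
      rw [h8]
      exact mul_lt_mul_of_pos_right (lt_of_le_of_lt (hA2 i) hsq) (by positivity)
  · have : IsEmpty (κ i) := Fintype.card_eq_zero_iff.1 (by omega)
    have e : u i + u i * ε = 0 := by rw [hu5 i hi]; ring
    simp only [e]
    exact site_ev0

end Pool.Agent.TH105.QH.Old
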